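import Pool.Agent.helper22.B2.StDefs

/-!
# b2:STa  stereographic charts and frame metrics on `ℝ⁴ ∖ 0`
-/

set_option autoImplicit false

namespace Pool.Agent.helper68.B2

open scoped ContDiff Topology Matrix
open Matrix Set

/-! ### the frame in coordinates -/

theorem STa_fld (i : Fin 3) (x : E4) : fld (ee i) x = J i x := by
  simp [fld, ee, Pi.single_apply]

theorem STa_J0 (x : E4) : J 0 x = !₂[-x 1, x 0, x 3, -x 2] := by
  ext a
  simp only [J]
  rw [Matrix.ofLp_toEuclideanCLM]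
  fin_cases a <;> simp [Jm, Matrix.mulVec, dotProduct, Fin.sum_univ_four]

theorem STa_J1 (x : E4) : J 1 x = !₂[-x 2, -x 3, x 0, x 1] := by
  ext a
  simp only [J]
  rw [Matrix.ofLp_toEuclideanCLM]
  fin_cases a <;> simp [Jm, Matrix.mulVec, dotProduct, Fin.sum_univ_four]

theorem STa_J2 (x : E4) : J 2 x = !₂[-x 3, x 2, -x 1, x 0] := by
  ext a
  simp only [J]
  rw [Matrix.ofLp_toEuclideanCLM]
  fin_cases a <;> simp [Jm, Matrix.mulVec, dotProduct, Fin.sum_univ_four]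

theorem STa_normsq (x : E4) : ‖x‖ ^ 2 = x 0 ^ 2 + x 1 ^ 2 + x 2 ^ 2 + x 3 ^ 2 := by
  rw [EuclideanSpace.norm_sq_eq]
  simp [Fin.sum_univ_four]

theorem STa_inner_J (i : Fin 3) (x : E4) : inner ℝ x (J i x) = 0 := by
  fin_cases i
  · show inner ℝ x (J 0 x) = 0
    rw [STa_J0]
    simp [PiLp.inner_apply, Fin.sum_univ_four]
    ring
  · show inner ℝ x (J 1 x) = 0
    rw [STa_J1]
    simp [PiLp.inner_apply, Fin.sum_univ_four]
    ring
  · show inner ℝ x (J 2 x) = 0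
    rw [STa_J2]
    simp [PiLp.inner_apply, Fin.sum_univ_four]
    ring

/-! ### matrix valued smooth functions -/

theorem STa_cd_of_entries {E : Type*} [NormedAddCommGroup E] [NormedSpace ℝ E]
    {k : WithTop ℕ∞} {A : E → M3} {s : Set E}
    (h : ∀ i j, ContDiffOn ℝ k (fun x => A x i j) s) : ContDiffOn ℝ k A s := by
  have h1 : A = fun x => ∑ i, ∑ j, (A x i j) • (Matrix.single i j (1 : ℝ) : M3) := by
    funext x
    conv_lhs => rw [Matrix.matrix_eq_sum_single (A x)]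
    simp [Matrix.smul_single]
  rw [h1]
  exact ContDiffOn.sum fun i _ => ContDiffOn.sum fun j _ => (h i j).smul contDiffOn_const

/-- entries of a smooth matrix function -/
theorem STa_cd_entry {E : Type*} [NormedAddCommGroup E] [NormedSpace ℝ E]
    {k : WithTop ℕ∞} {A : E → M3} {s : Set E} (h : ContDiffOn ℝ k A s) (i j : Fin 3) :
    ContDiffOn ℝ k (fun x => A x i j) s := by
  let T : M3 →L[ℝ] ℝ := (Matrix.entryLinearMap ℝ ℝ i j).toContinuousLinearMap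
  exact T.contDiff.comp_contDiffOn h

/-! ### the charts -/

/-- both charts at once -/
noncomputable def STa_st (σ : ℝ) (p : E4) : Fin 3 → ℝ :=
  fun a => p (Fin.castSucc a) / (‖p‖ - σ * p 3)

theorem STa_stX : stX = STa_st 1 := by
  funext p a
  simp [stX, STa_st]

theorem STa_stY : stY = STa_st (-1) := by
  funext p a
  simp [stY, STa_st]

theorem STa_coord (a : Fin 4) (x : E4) :
    HasFDerivAt (fun y : E4 => y a) (EuclideanSpace.proj a : E4 →L[ℝ] ℝ) x :=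
  (EuclideanSpace.proj a : E4 →L[ℝ] ℝ).hasFDerivAt

theorem STa_norm_deriv (x : E4) (hx : x ≠ 0) :
    HasFDerivAt (fun y : E4 => ‖y‖) (‖x‖⁻¹ • innerSL ℝ x) x := by
  have h1 := (hasStrictFDerivAt_norm_sq x).hasFDerivAt.sqrt
    (by simpa using hx)
  have h2 : (fun y : E4 => Real.sqrt (‖y‖ ^ 2)) = fun y => ‖y‖ := by
    funext y
    exact Real.sqrt_sq (norm_nonneg y)
  rw [h2] at h1
  refine h1.congr_fderiv ?_
  rw [Real.sqrt_sq (norm_nonneg x)]
  ext v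
  have : ‖x‖ ≠ 0 := norm_ne_zero_iff.2 hx
  simp
  field_simp

theorem STa_st_deriv (σ : ℝ) (x : E4) (hx : x ≠ 0) (h3 : ‖x‖ - σ * x 3 ≠ 0) (a : Fin 3) :
    HasFDerivAt (fun y => STa_st σ y a)
      ((‖x‖ - σ * x 3)⁻¹ • (EuclideanSpace.proj (Fin.castSucc a) : E4 →L[ℝ] ℝ)
        - (x (Fin.castSucc a) * ((‖x‖ - σ * x 3) ^ 2)⁻¹) •
          (‖x‖⁻¹ • innerSL ℝ x - σ • (EuclideanSpace.proj 3 : E4 →L[ℝ] ℝ))) x := by
  have h1 := STa_coord (Fin.castSucc a) x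
  have h2 : HasFDerivAt (fun y : E4 => ‖y‖ - σ * y 3)
      (‖x‖⁻¹ • innerSL ℝ x - σ • (EuclideanSpace.proj 3 : E4 →L[ℝ] ℝ)) x :=
    (STa_norm_deriv x hx).sub ((STa_coord 3 x).const_mul σ)
  have h4 := h1.mul ((hasDerivAt_inv h3).comp_hasFDerivAt x h2)
  have h5 : (fun y => STa_st σ y a)
      = ((fun y : E4 => y (Fin.castSucc a)) * (fun y => y⁻¹) ∘ fun y : E4 => ‖y‖ - σ * y 3) := by
    funext y
    simp [STa_st, div_eq_mul_inv]
  rw [h5]
  refine h4.congr_fderiv ?_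
  ext v
  simp
  ring

/-- the explicit Jacobian -/
theorem STa_stB (σ : ℝ) (x : E4) (hx : x ≠ 0) (h3 : ‖x‖ - σ * x 3 ≠ 0) (a i : Fin 3) :
    stB (STa_st σ) x a i = (J i x (Fin.castSucc a) * (‖x‖ - σ * x 3)
      + σ * x (Fin.castSucc a) * J i x 3) / (‖x‖ - σ * x 3) ^ 2 := by
  have h := (STa_st_deriv σ x hx h3 a).fderiv
  simp only [stB, Matrix.of_apply, Dv]
  rw [h, STa_fld]
  have h0 := STa_inner_J i x
  simp [h0]
  field_simp

/-- the chart is conformal -/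
theorem STa_orth (σ : ℝ) (hσ : σ ^ 2 = 1) (x : E4) (hx : x ≠ 0) (h3 : ‖x‖ - σ * x 3 ≠ 0) :
    (stB (STa_st σ) x)ᵀ * stB (STa_st σ) x = (‖x‖ ^ 2 / (‖x‖ - σ * x 3) ^ 2) • (1 : M3) := by
  have hn := STa_normsq x
  ext i j
  rw [Matrix.mul_apply, Fin.sum_univ_three]
  simp only [Matrix.transpose_apply, Matrix.smul_apply, STa_stB σ x hx h3]
  set r := ‖x‖ with hr
  have e1 : ∀ i j : Fin 3, (1 : M3) i j = if i = j then 1 else 0 := fun i j => rfl
  rw [e1]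
  have hr2 : r ^ 2 = x 0 ^ 2 + x 1 ^ 2 + x 2 ^ 2 + x 3 ^ 2 := hn
  have key : (J i x 0 * (r - σ * x 3) + σ * x 0 * J i x 3)
        * (J j x 0 * (r - σ * x 3) + σ * x 0 * J j x 3)
      + (J i x 1 * (r - σ * x 3) + σ * x 1 * J i x 3)
        * (J j x 1 * (r - σ * x 3) + σ * x 1 * J j x 3)
      + (J i x 2 * (r - σ * x 3) + σ * x 2 * J i x 3)
        * (J j x 2 * (r - σ * x 3) + σ * x 2 * J j x 3)
      = (if i = j then 1 else 0) * (r ^ 2 * (r - σ * x 3) ^ 2) := by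
    have hij : J i x 0 * J j x 0 + J i x 1 * J j x 1 + J i x 2 * J j x 2 + J i x 3 * J j x 3
        = (if i = j then 1 else 0) * r ^ 2 := by
      rw [hr2]
      fin_cases i <;> fin_cases j <;>
        simp [STa_J0, STa_J1, STa_J2] <;> ring
    have hi : ∀ i, x 0 * J i x 0 + x 1 * J i x 1 + x 2 * J i x 2 + x 3 * J i x 3 = 0 := by
      intro i
      fin_cases i <;> simp [STa_J0, STa_J1, STa_J2] <;> ring
    have h1 := hi i
    have h2 := hi j
    generalize J i x 0 = a0 at *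
    generalize J i x 1 = a1 at *
    generalize J i x 2 = a2 at *
    generalize J i x 3 = a3 at *
    generalize J j x 0 = b0 at *
    generalize J j x 1 = b1 at *
    generalize J j x 2 = b2 at *
    generalize J j x 3 = b3 at *
    generalize (if i = j then (1 : ℝ) else 0) = δ at *
    linear_combination (r - σ * x 3) ^ 2 * hij + σ * (r - σ * x 3) * b3 * h1
      + σ * (r - σ * x 3) * a3 * h2 - σ ^ 2 * a3 * b3 * hr2
      + (r ^ 2 * a3 * b3) * hσ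
  have e0 : (Fin.castSucc (0 : Fin 3)) = (0 : Fin 4) := rfl
  have e1' : (Fin.castSucc (1 : Fin 3)) = (1 : Fin 4) := rfl
  have e2 : (Fin.castSucc (2 : Fin 3)) = (2 : Fin 4) := rfl
  rw [e0, e1', e2, smul_eq_mul]
  field_simp
  linear_combination key

theorem STa_det (σ : ℝ) (hσ : σ ^ 2 = 1) (x : E4) (hx : x ≠ 0) (h3 : ‖x‖ - σ * x 3 ≠ 0) :
    (stB (STa_st σ) x).det ≠ 0 := by
  intro h
  have h1 := congrArg Matrix.det (STa_orth σ hσ x hx h3)
  rw [Matrix.det_mul, Matrix.det_transpose, h, Matrix.det_smul, Matrix.det_one] at h1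
  have h2 : ‖x‖ ^ 2 / (‖x‖ - σ * x 3) ^ 2 ≠ 0 := by
    have := norm_ne_zero_iff.2 hx
    positivity
  have h4 := pow_ne_zero (Fintype.card (Fin 3)) h2
  rw [mul_zero, mul_one] at h1
  exact h4 h1.symm

/-! ### smoothness and homogeneity -/

/-- the domain of the chart -/
def STa_U (σ : ℝ) : Set E4 := {x | x ≠ 0 ∧ ‖x‖ - σ * x 3 ≠ 0}

theorem STa_U_open (σ : ℝ) : IsOpen (STa_U σ) := by
  have h1 : IsOpen {x : E4 | x ≠ 0} := isOpen_ne
  have h2 : IsOpen {x : E4 | ‖x‖ - σ * x 3 ≠ 0} := by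
    apply isOpen_ne_fun
    · have : Continuous fun x : E4 => x 3 := (EuclideanSpace.proj 3 : E4 →L[ℝ] ℝ).continuous
      fun_prop
    · exact continuous_const
  exact h1.inter h2

theorem STa_coord_cd (a : Fin 4) (s : Set E4) : ContDiffOn ℝ ∞ (fun x : E4 => x a) s :=
  (EuclideanSpace.proj a : E4 →L[ℝ] ℝ).contDiff.contDiffOn

theorem STa_J_cd (i : Fin 3) (a : Fin 4) (s : Set E4) :
    ContDiffOn ℝ ∞ (fun x : E4 => J i x a) s :=
  ((EuclideanSpace.proj a : E4 →L[ℝ] ℝ).comp (J i)).contDiff.contDiffOn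

theorem STa_norm_cd (σ : ℝ) : ContDiffOn ℝ ∞ (fun x : E4 => ‖x‖) (STa_U σ) :=
  fun _ hx => (contDiffAt_norm ℝ hx.1).contDiffWithinAt

theorem STa_den_cd (σ : ℝ) : ContDiffOn ℝ ∞ (fun x : E4 => ‖x‖ - σ * x 3) (STa_U σ) :=
  (STa_norm_cd σ).sub (contDiffOn_const.mul (STa_coord_cd 3 _))

theorem STa_st_cd (σ : ℝ) : ContDiffOn ℝ ∞ (STa_st σ) (STa_U σ) := by
  rw [contDiffOn_pi]
  intro a
  exact (STa_coord_cd _ _).div (STa_den_cd σ) fun x hx => hx.2

theorem STa_stB_cd (σ : ℝ) (a i : Fin 3) :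
    ContDiffOn ℝ ∞ (fun x => stB (STa_st σ) x a i) (STa_U σ) := by
  have h : ContDiffOn ℝ ∞ (fun x : E4 => (J i x (Fin.castSucc a) * (‖x‖ - σ * x 3)
      + σ * x (Fin.castSucc a) * J i x 3) / (‖x‖ - σ * x 3) ^ 2) (STa_U σ) := by
    refine ContDiffOn.div ?_ ((STa_den_cd σ).pow 2) fun x hx => pow_ne_zero 2 hx.2
    exact ((STa_J_cd _ _ _).mul (STa_den_cd σ)).add
      ((contDiffOn_const.mul (STa_coord_cd _ _)).mul (STa_J_cd _ _ _))
  exact h.congr fun x hx => STa_stB σ x hx.1 hx.2 a i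

/-- the pulled back matrix -/
noncomputable def STa_pb (σ : ℝ) (g : (Fin 3 → ℝ) → M3) (x : E4) : M3 :=
  (stB (STa_st σ) x)ᵀ * g (STa_st σ x) * stB (STa_st σ) x

theorem STa_pb_cd (σ : ℝ) (g : (Fin 3 → ℝ) → M3)
    (hg : ∀ i j, ContDiff ℝ (⊤ : ℕ∞) (fun x => g x i j)) :
    ContDiffOn ℝ ∞ (STa_pb σ g) (STa_U σ) := by
  apply STa_cd_of_entries
  intro i j
  simp only [STa_pb, Matrix.mul_apply, Matrix.transpose_apply]
  refine ContDiffOn.sum fun b _ => ContDiffOn.mul (ContDiffOn.sum fun a _ => ?_)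
    (STa_stB_cd σ b j)
  exact (STa_stB_cd σ a i).mul ((hg a b).comp_contDiffOn (STa_st_cd σ))

theorem STa_mem_smul (σ t : ℝ) (ht : 0 < t) (x : E4) : t • x ∈ STa_U σ ↔ x ∈ STa_U σ := by
  simp only [STa_U, Set.mem_ofPred_eq]
  rw [norm_smul, Real.norm_of_nonneg ht.le]
  have h1 : (t • x) 3 = t * x 3 := by simp
  rw [h1]
  have h2 : t * ‖x‖ - σ * (t * x 3) = t * (‖x‖ - σ * x 3) := by ring
  rw [h2, smul_ne_zero_iff, mul_ne_zero_iff]
  have := ht.ne'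
  tauto

theorem STa_st_hom (σ t : ℝ) (ht : 0 < t) (x : E4) : STa_st σ (t • x) = STa_st σ x := by
  funext a
  simp only [STa_st]
  rw [norm_smul, Real.norm_of_nonneg ht.le]
  have h1 : ∀ a, (t • x) a = t * x a := by intro a; simp
  rw [h1, h1]
  have h2 : t * ‖x‖ - σ * (t * x 3) = t * (‖x‖ - σ * x 3) := by ring
  rw [h2, mul_div_mul_left _ _ ht.ne']

theorem STa_stB_hom (σ t : ℝ) (ht : 0 < t) (x : E4) (hx : x ∈ STa_U σ) :
    stB (STa_st σ) (t • x) = stB (STa_st σ) x := by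
  have hx2 := (STa_mem_smul σ t ht x).2 hx
  ext a i
  rw [STa_stB σ x hx.1 hx.2, STa_stB σ _ hx2.1 hx2.2]
  rw [norm_smul, Real.norm_of_nonneg ht.le]
  have h1 : ∀ a, (t • x) a = t * x a := by intro a; simp
  have h3 : ∀ a, J i (t • x) a = t * J i x a := by intro a; simp
  rw [h1, h1, h3, h3]
  have h2 : t * ‖x‖ - σ * (t * x 3) = t * (‖x‖ - σ * x 3) := by ring
  rw [h2]
  have h4 := hx.2
  have h5 := ht.ne'
  field_simp

theorem STa_pb_hom (σ : ℝ) (g : (Fin 3 → ℝ) → M3) (t : ℝ) (ht : 0 < t) (x : E4)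
    (hx : x ∈ STa_U σ) : STa_pb σ g (t • x) = STa_pb σ g x := by
  simp only [STa_pb, STa_stB_hom σ t ht x hx, STa_st_hom σ t ht x]

theorem STa_pb_symm (σ : ℝ) (g : (Fin 3 → ℝ) → M3) (hs : ∀ x, (g x).IsSymm) (x : E4) :
    (STa_pb σ g x)ᵀ = STa_pb σ g x := by
  simp only [STa_pb, Matrix.transpose_mul, Matrix.transpose_transpose, (hs _).eq, Matrix.mul_assoc]

theorem STa_pb_det (σ : ℝ) (hσ : σ ^ 2 = 1) (g : (Fin 3 → ℝ) → M3) (hs : ∀ x, (g x).det ≠ 0)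
    (x : E4) (hx : x ∈ STa_U σ) : (STa_pb σ g x).det ≠ 0 := by
  simp only [STa_pb, Matrix.det_mul, Matrix.det_transpose]
  have h := STa_det σ hσ x hx.1 hx.2
  exact mul_ne_zero (mul_ne_zero h (hs _)) h

/-! ### gluing -/

theorem STa_sumsq (x : E4) (h : x ∈ STa_U 1) (h' : x ∈ STa_U (-1)) :
    ∑ i : Fin 3, STa_st (-1) x i ^ 2 = (‖x‖ - x 3) / (‖x‖ + x 3) := by
  have hn := STa_normsq x
  have h1 := h.2
  have h2 := h'.2
  rw [one_mul] at h1
  rw [neg_one_mul, sub_neg_eq_add] at h2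
  rw [Fin.sum_univ_three]
  simp only [STa_st, neg_one_mul, sub_neg_eq_add]
  have e0 : (Fin.castSucc (0 : Fin 3)) = (0 : Fin 4) := rfl
  have e1' : (Fin.castSucc (1 : Fin 3)) = (1 : Fin 4) := rfl
  have e2 : (Fin.castSucc (2 : Fin 3)) = (2 : Fin 4) := rfl
  rw [e0, e1', e2]
  field_simp
  linear_combination -hn

theorem STa_inv (x : E4) (h : x ∈ STa_U 1) (h' : x ∈ STa_U (-1)) :
    (∑ i : Fin 3, STa_st (-1) x i ^ 2)⁻¹ • STa_st (-1) x = STa_st 1 x := by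
  rw [STa_sumsq x h h']
  have h1 := h.2
  have h2 := h'.2
  rw [one_mul] at h1
  rw [neg_one_mul, sub_neg_eq_add] at h2
  funext a
  simp only [STa_st, neg_one_mul, sub_neg_eq_add, one_mul, Pi.smul_apply, smul_eq_mul]
  field_simp

theorem STa_sumYB (x : E4) (h : x ∈ STa_U 1) (h' : x ∈ STa_U (-1)) (i : Fin 3) :
    ∑ a : Fin 3, STa_st (-1) x a * stB (STa_st (-1)) x a i
      = -(J i x 3 * ‖x‖ / (‖x‖ + x 3) ^ 2) := by
  rw [Fin.sum_univ_three]
  simp only [STa_stB (-1) x h'.1 h'.2, STa_st]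
  have hn := STa_normsq x
  have h1 := h.2
  have h2 := h'.2
  rw [one_mul] at h1
  rw [neg_one_mul, sub_neg_eq_add] at h2
  simp only [neg_one_mul, sub_neg_eq_add]
  have hi : x 0 * J i x 0 + x 1 * J i x 1 + x 2 * J i x 2 + x 3 * J i x 3 = 0 := by
    fin_cases i <;> simp [STa_J0, STa_J1, STa_J2] <;> ring
  have e0 : (Fin.castSucc (0 : Fin 3)) = (0 : Fin 4) := rfl
  have e1' : (Fin.castSucc (1 : Fin 3)) = (1 : Fin 4) := rfl
  have e2 : (Fin.castSucc (2 : Fin 3)) = (2 : Fin 4) := rfl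
  rw [e0, e1', e2]
  generalize J i x 0 = w0 at *
  generalize J i x 1 = w1 at *
  generalize J i x 2 = w2 at *
  generalize J i x 3 = w3 at *
  field_simp
  linear_combination (‖x‖ + x 3) * hi + w3 * hn

theorem STa_chain (x : E4) (h : x ∈ STa_U 1) (h' : x ∈ STa_U (-1)) (c i : Fin 3) :
    stB (STa_st 1) x c i = ∑ a : Fin 3,
      ((if c = a then (∑ i : Fin 3, STa_st (-1) x i ^ 2)⁻¹ else 0)
          - 2 * STa_st (-1) x c * STa_st (-1) x a * ((∑ i : Fin 3, STa_st (-1) x i ^ 2)⁻¹) ^ 2) *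
        stB (STa_st (-1)) x a i := by
  set A := (∑ i : Fin 3, STa_st (-1) x i ^ 2)⁻¹ with hA
  have hsplit : ∀ a : Fin 3, ((if c = a then A else 0)
      - 2 * STa_st (-1) x c * STa_st (-1) x a * A ^ 2) * stB (STa_st (-1)) x a i
      = (if c = a then A * stB (STa_st (-1)) x a i else 0)
        - 2 * STa_st (-1) x c * A ^ 2 * (STa_st (-1) x a * stB (STa_st (-1)) x a i) := by
    intro a
    split_ifs <;> ring
  rw [Finset.sum_congr rfl fun a _ => hsplit a, Finset.sum_sub_distrib, Finset.sum_ite_eq,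
    ← Finset.mul_sum, STa_sumYB x h h' i, if_pos (Finset.mem_univ c), hA, STa_sumsq x h h']
  rw [STa_stB 1 x h.1 h.2, STa_stB (-1) x h'.1 h'.2]
  have h1 := h.2
  have h2 := h'.2
  rw [one_mul] at h1
  rw [neg_one_mul, sub_neg_eq_add] at h2
  simp only [STa_st, neg_one_mul, sub_neg_eq_add, one_mul]
  generalize J i x 3 = w3 at *
  generalize J i x (Fin.castSucc c) = wc at *
  generalize x (Fin.castSucc c) = pc at *
  generalize x 3 = x3 at *
  generalize ‖x‖ = r at *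
  field_simp
  ring

theorem STa_glue (g h : (Fin 3 → ℝ) → M3) (hgl : Glue g h) (x : E4) (h1 : x ∈ STa_U 1)
    (h2 : x ∈ STa_U (-1)) : STa_pb 1 g x = STa_pb (-1) h x := by
  have hy : STa_st (-1) x ≠ 0 := by
    intro h0
    have h3 := STa_inv x h1 h2
    have h4 := STa_sumsq x h1 h2
    rw [h0] at h4
    have h5 := h1.2
    have h6 := h2.2
    rw [one_mul] at h5
    rw [neg_one_mul, sub_neg_eq_add] at h6
    have h7 : (‖x‖ - x 3) / (‖x‖ + x 3) = 0 := by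
      rw [← h4]; simp
    rw [div_eq_zero_iff] at h7
    exact h7.elim h5 h6
  have hg := hgl (STa_st (-1) x) hy
  rw [STa_inv x h1 h2] at hg
  set D : M3 := Matrix.of fun c a => ((if c = a then (∑ i : Fin 3, STa_st (-1) x i ^ 2)⁻¹ else 0)
          - 2 * STa_st (-1) x c * STa_st (-1) x a * ((∑ i : Fin 3, STa_st (-1) x i ^ 2)⁻¹) ^ 2)
    with hD
  have hB : stB (STa_st 1) x = D * stB (STa_st (-1)) x := by
    ext c i
    rw [Matrix.mul_apply, STa_chain x h1 h2 c i]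
    rfl
  have hh : h (STa_st (-1) x) = Dᵀ * g (STa_st 1 x) * D := by
    ext a b
    rw [hg a b, Matrix.mul_apply, Finset.sum_comm]
    refine Finset.sum_congr rfl fun d _ => ?_
    rw [Matrix.mul_apply, Finset.sum_mul]
    rfl
  simp only [STa_pb]
  rw [hB, hh, Matrix.transpose_mul]
  simp only [Matrix.mul_assoc]

theorem STa_mem_one (x : E4) : x ∈ STa_U 1 ↔ x ≠ 0 ∧ x 3 ≠ ‖x‖ := by
  simp only [STa_U, Set.mem_ofPred_eq, one_mul, sub_ne_zero]
  constructor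
  · rintro ⟨h1, h2⟩
    exact ⟨h1, fun h => h2 h.symm⟩
  · rintro ⟨h1, h2⟩
    exact ⟨h1, fun h => h2 h.symm⟩

theorem STa_cover (x : E4) (hx : x ≠ 0) (h : x ∉ STa_U 1) : x ∈ STa_U (-1) := by
  rw [STa_mem_one] at h
  have h1 : x 3 = ‖x‖ := by
    by_contra h2
    exact h ⟨hx, h2⟩
  refine ⟨hx, ?_⟩
  have h2 := norm_pos_iff.2 hx
  rw [h1]
  intro h3
  linarith

/-- b2:BRa  a glued pair of chart metrics gives a frame metric on `ℝ⁴ ∖ 0` -/
theorem BRa (g h : (Fin 3 → ℝ) → M3) (hg : ∀ i j, ContDiff ℝ (⊤ : ℕ∞) (fun x => g x i j))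
    (hh : ∀ i j, ContDiff ℝ (⊤ : ℕ∞) (fun x => h x i j)) (hglue : Glue g h)
    (hgs : ∀ x, (g x).IsSymm ∧ (g x).det ≠ 0) (hhs : ∀ x, (h x).IsSymm ∧ (h x).det ≠ 0) :
    ∃ G : E4 → M3, Sm G ∧ Hom G ∧ (∀ x, x ≠ 0 → (G x)ᵀ = G x ∧ (G x).det ≠ 0) ∧
      (∀ x, x ≠ 0 → x 3 ≠ ‖x‖ → G x = (stB stX x)ᵀ * g (stX x) * stB stX x) := by
  classical
  set G : E4 → M3 := fun x => if x ∈ STa_U 1 then STa_pb 1 g x else STa_pb (-1) h x with hG
  have hG1 : ∀ x ∈ STa_U 1, G x = STa_pb 1 g x := fun x hx => if_pos hx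
  have hG2 : ∀ x ∈ STa_U (-1), G x = STa_pb (-1) h x := by
    intro x hx
    by_cases h1 : x ∈ STa_U 1
    · rw [hG1 x h1, STa_glue g h hglue x h1 hx]
    · exact if_neg h1
  have hone : (1 : ℝ) ^ 2 = 1 := by norm_num
  have hmone : (-1 : ℝ) ^ 2 = 1 := by norm_num
  refine ⟨G, ?_, ?_, ?_, ?_⟩
  · intro x hx
    have hx0 : x ≠ 0 := hx
    by_cases h1 : x ∈ STa_U 1
    · have h2 : ContDiffAt ℝ ∞ (STa_pb 1 g) x :=
        (STa_pb_cd 1 g hg).contDiffAt ((STa_U_open 1).mem_nhds h1)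
      have h3 : G =ᶠ[𝓝 x] STa_pb 1 g :=
        Filter.eventually_of_mem ((STa_U_open 1).mem_nhds h1) hG1
      exact (h2.congr_of_eventuallyEq h3).contDiffWithinAt
    · have h1' := STa_cover x hx0 h1
      have h2 : ContDiffAt ℝ ∞ (STa_pb (-1) h) x :=
        (STa_pb_cd (-1) h hh).contDiffAt ((STa_U_open (-1)).mem_nhds h1')
      have h3 : G =ᶠ[𝓝 x] STa_pb (-1) h :=
        Filter.eventually_of_mem ((STa_U_open (-1)).mem_nhds h1') hG2
      exact (h2.congr_of_eventuallyEq h3).contDiffWithinAt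
  · intro t ht x
    by_cases hx0 : x = 0
    · rw [hx0, smul_zero]
    by_cases h1 : x ∈ STa_U 1
    · rw [hG1 x h1, hG1 _ ((STa_mem_smul 1 t ht x).2 h1), STa_pb_hom 1 g t ht x h1]
    · have h1' := STa_cover x hx0 h1
      rw [hG2 x h1', hG2 _ ((STa_mem_smul (-1) t ht x).2 h1'), STa_pb_hom (-1) h t ht x h1']
  · intro x hx0
    by_cases h1 : x ∈ STa_U 1
    · rw [hG1 x h1]
      exact ⟨STa_pb_symm 1 g (fun y => (hgs y).1) x,
        STa_pb_det 1 hone g (fun y => (hgs y).2) x h1⟩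
    · have h1' := STa_cover x hx0 h1
      rw [hG2 x h1']
      exact ⟨STa_pb_symm (-1) h (fun y => (hhs y).1) x,
        STa_pb_det (-1) hmone h (fun y => (hhs y).2) x h1'⟩
  · intro x hx h3
    rw [hG1 x ((STa_mem_one x).2 ⟨hx, h3⟩), STa_stX]
    rfl

theorem BRa_jac (x : E4) (hx : x ≠ 0) (h3 : x 3 ≠ ‖x‖) : (stB stX x).det ≠ 0 := by
  rw [STa_stX]
  have h := (STa_mem_one x).2 ⟨hx, h3⟩
  exact STa_det 1 (by norm_num) x h.1 h.2

theorem BRa_surj (y : Fin 3 → ℝ) : ∃ x : E4, x ≠ 0 ∧ x 3 ≠ ‖x‖ ∧ stX x = y := by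
  set S : ℝ := y 0 ^ 2 + y 1 ^ 2 + y 2 ^ 2 with hS
  have hS0 : 0 ≤ S := by positivity
  set x : E4 := !₂[2 * y 0, 2 * y 1, 2 * y 2, S - 1] with hx
  have c0 : x 0 = 2 * y 0 := by simp [hx]
  have c1 : x 1 = 2 * y 1 := by simp [hx]
  have c2 : x 2 = 2 * y 2 := by simp [hx]
  have c3 : x 3 = S - 1 := by simp [hx]
  have hn2 : ‖x‖ ^ 2 = (S + 1) ^ 2 := by
    rw [STa_normsq, c0, c1, c2, c3]
    rw [hS]; ring
  have hn : ‖x‖ = S + 1 := by
    have h1 := Real.sqrt_sq (norm_nonneg x)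
    rw [hn2, Real.sqrt_sq (by positivity)] at h1
    exact h1.symm
  refine ⟨x, ?_, ?_, ?_⟩
  · rw [← norm_pos_iff, hn]; positivity
  · rw [c3, hn]; intro h; linarith
  · funext a
    simp only [stX]
    rw [hn, c3]
    have h2 : S + 1 - (S - 1) = 2 := by ring
    rw [h2]
    fin_cases a
    · show x 0 / 2 = y 0
      rw [c0]; ring
    · show x 1 / 2 = y 1
      rw [c1]; ring
    · show x 2 / 2 = y 2
      rw [c2]; ring

end Pool.Agent.helper68.B2
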