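import Pool.Agent.helper25.B2.GDefs
import Pool.Agent.helper97.B2.T3b
import Pool.Agent.helper58.B2.W2

/-!
# b2:G0  basic facts on sorted roots
-/

set_option autoImplicit false

namespace Pool.Agent.helper68.B2

open scoped ContDiff Topology Matrix
open Matrix Set Filter

namespace Srt

theorem G0_rr {A : M3} {a b c : ℝ} (h : RR3 A a b c) (t : ℝ) :
    (A - t • (1 : M3)).det = -((t - a) * (t - b) * (t - c)) := by
  have h1 : A - t • (1 : M3) = -(t • (1 : M3) - A) := by abel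
  rw [h1, Matrix.det_neg, h t]
  simp
  ring

theorem G0_coef {A : M3} {a b c : ℝ} (h : RR3 A a b c) :
    A.trace = a + b + c ∧ A.adjugate.trace = a * b + a * c + b * c ∧ A.det = a * b * c := by
  have h0 := G0_rr h 0
  have h1 := G0_rr h 1
  have h2 := G0_rr h (-1)
  have h3 := G0_rr h 2
  rw [T3a_det_expand] at h0 h1 h2 h3
  have e0 : A.det = a * b * c := by linarith
  have e1 : A.trace = a + b + c := by linarith
  refine ⟨e1, by linarith, e0⟩

theorem G0_tr2 (A : M3) : (A * A).trace = A.trace ^ 2 - 2 * A.adjugate.trace := by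
  have h := congrArg Matrix.trace (T3b_adj_formula A)
  rw [Matrix.trace_add, Matrix.trace_sub, Matrix.trace_smul, Matrix.trace_smul,
    Matrix.trace_one] at h
  simp only [smul_eq_mul, Fintype.card_fin] at h
  push_cast at h
  linarith

variable {S : Geo} (R : Srt S)

/-- `T` is a root field for `μ` at every point -/
theorem K_mu {x : E4} (hx : x ≠ 0) : S.K (R.μ x) x = R.sg • vecMulVec (R.T x) (S.G x *ᵥ R.T x) := by
  have h := R.KT x hx
  have hdet : IsUnit (S.G x).det := isUnit_iff_ne_zero.2 (S.det_neg x hx).ne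
  unfold Geo.Ku at h
  have h1 := congrArg (fun M : M3 => M * S.G x) h
  simp only [Matrix.mul_assoc, Matrix.nonsing_inv_mul _ hdet, Matrix.mul_one] at h1
  rw [h1, Matrix.smul_mul]
  congr 1
  have h2 : (S.G x)ᵀ = S.G x := S.symm x hx
  conv_rhs => rw [← h2]
  rw [Matrix.mulVec_transpose, Matrix.vecMulVec_mul]

theorem tr_L {x : E4} (hx : x ≠ 0) : (S.L x).trace = R.μ x + R.ν x + R.ρ x :=
  (G0_coef (R.fac x hx)).1

theorem tr_L2 {x : E4} (hx : x ≠ 0) :
    (S.L x * S.L x).trace = R.μ x ^ 2 + R.ν x ^ 2 + R.ρ x ^ 2 := by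
  obtain ⟨h1, h2, -⟩ := G0_coef (R.fac x hx)
  rw [G0_tr2, h1, h2]
  ring

theorem G0_root {x : E4} (hx : x ≠ 0) : (S.L x - R.μ x • (1 : M3)).det = 0 := by
  rw [G0_rr (R.fac x hx)]
  ring

theorem G0_adj {x : E4} (hx : x ≠ 0) :
    (S.L x - R.μ x • (1 : M3)).adjugate.trace = (R.ν x - R.μ x) * (R.ρ x - R.μ x) := by
  obtain ⟨h1, h2, -⟩ := G0_coef (R.fac x hx)
  rw [T3a_adj_expand, h1, h2]
  ring

theorem G0_simple {x : E4} (hx : x ∈ R.Om) : (S.L x - R.μ x • (1 : M3)).adjugate.trace ≠ 0 := by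
  rw [R.G0_adj hx.1]
  have h1 : R.μ x < R.ν x := hx.2
  have h2 := R.le₂ x hx.1
  exact (mul_pos (by linarith) (by linarith)).ne'

theorem G0_cone : OCone R.Om where
  isOpen := by
    have h := (R.cν.sub R.cμ).isOpen_inter_preimage isOpen_compl_singleton (isOpen_Ioi (a := (0 : ℝ)))
    convert h using 1
    ext x
    simp [Om]
  zero := fun h => h.1 rfl
  smul := by
    intro x hx t ht
    refine ⟨smul_ne_zero ht.ne' hx.1, ?_⟩
    rw [R.hμ t ht x, R.hν t ht x]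
    exact hx.2

theorem G0_sub : R.Om ⊆ {0}ᶜ := fun _ hx => hx.1

theorem G0_inv_smooth {W : Set E4} (hW : W ⊆ {0}ᶜ) : ContDiffOn ℝ ∞ (fun x => (S.G x)⁻¹) W := by
  have h1 : ContDiffOn ℝ ∞ (fun x => ((S.G x).det)⁻¹ • (S.G x).adjugate) W := by
    refine ContDiffOn.smul (ContDiffOn.inv ?_ fun x hx => (S.det_neg x (hW hx)).ne) ?_
    · exact (T3a_det_smooth ∞).comp_contDiffOn (S.smG.mono hW)
    · exact (T3b_adj_smooth ∞).comp_contDiffOn (S.smG.mono hW)
  refine h1.congr fun x hx => ?_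
  rw [Matrix.inv_def, Ring.inverse_eq_inv']

theorem G0_smooth_mu : ContDiffOn ℝ ∞ R.μ R.Om :=
  T3_smooth S R.G0_cone.isOpen R.G0_cone.zero (R.cμ.mono R.G0_sub)
    (fun _ hx => R.G0_root hx.1) (fun _ hx => R.G0_simple hx)

theorem G0_smooth_T : ContDiffOn ℝ ∞ R.T R.Om := by
  refine W2_smooth (fun x => S.Ku (R.μ x) x) R.T R.sg R.hsg R.Om R.G0_cone.isOpen ?_
    (R.cT.mono R.G0_sub) (fun x hx => ⟨R.T0 x hx.1, R.KT x hx.1⟩)
  intro i j
  have h1 : ContDiffOn ℝ ∞ (fun x => S.L x - R.μ x • (1 : M3)) R.Om :=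
    (S.smL.mono R.G0_sub).sub (R.G0_smooth_mu.smul contDiffOn_const)
  have h2 : ContDiffOn ℝ ∞ (fun x => (S.L x - R.μ x • (1 : M3)).adjugate) R.Om :=
    (T3b_adj_smooth ∞).comp_contDiffOn h1
  have h3 : ContDiffOn ℝ ∞ (fun x => S.Ku (R.μ x) x) R.Om :=
    h2.mul (G0_inv_smooth R.G0_sub)
  exact (T3a_entry ∞ i j).comp_contDiffOn h3

theorem isRoot : IsRoot S R.Om R.μ R.sg R.T where
  cone := R.G0_cone
  homμ := R.hμ
  homT := R.hT
  smμ := R.G0_smooth_mu
  smT := R.G0_smooth_T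
  sign := R.hsg
  root := fun _ hx => R.G0_root hx.1
  simple := fun _ hx => R.G0_simple hx
  adj := fun _ hx => R.K_mu hx.1

end Srt

end Pool.Agent.helper68.B2
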