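import Pool.Agent.helper68.B2.Defs

/-!
# b2:ST  definitions for the bridge (stereographic charts, gluing, Christoffel symbols)
-/

set_option autoImplicit false

namespace Pool.Agent.helper68.B2

open scoped ContDiff Topology Matrix
open Matrix Set

/-- stereographic coordinates off the ray `p 3 = ‖p‖` -/
noncomputable def stX (p : E4) : Fin 3 → ℝ := fun a => p (Fin.castSucc a) / (‖p‖ - p 3)
/-- stereographic coordinates off the ray `p 3 = -‖p‖` -/
noncomputable def stY (p : E4) : Fin 3 → ℝ := fun a => p (Fin.castSucc a) / (‖p‖ + p 3)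
/-- Jacobian in the frame -/
noncomputable def stB (X : E4 → Fin 3 → ℝ) (x : E4) : M3 :=
  Matrix.of fun a i => Dv (fun y => X y a) (ee i) x

/-- gluing condition of the frozen statement -/
def Glue (g h : (Fin 3 → ℝ) → M3) : Prop :=
  ∀ y : Fin 3 → ℝ, y ≠ 0 → ∀ a b : Fin 3,
      h y a b = ∑ c : Fin 3, ∑ d : Fin 3,
        ((if c = a then (∑ i : Fin 3, y i ^ 2)⁻¹ else 0)
          - 2 * y c * y a * ((∑ i : Fin 3, y i ^ 2)⁻¹) ^ 2) *
        g ((∑ i : Fin 3, y i ^ 2)⁻¹ • y) c d *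
        ((if d = b then (∑ i : Fin 3, y i ^ 2)⁻¹ else 0)
          - 2 * y d * y b * ((∑ i : Fin 3, y i ^ 2)⁻¹) ^ 2)

/-- Christoffel symbols of the frozen statement -/
noncomputable def chris (g : (Fin 3 → ℝ) → M3) (x : Fin 3 → ℝ) (i j k : Fin 3) : ℝ :=
  (1 / 2 : ℝ) * ∑ l : Fin 3, (g x)⁻¹ i l *
        (fderiv ℝ (fun z => g z l k) x (Pi.single j 1 : Fin 3 → ℝ)
          + fderiv ℝ (fun z => g z l j) x (Pi.single k 1 : Fin 3 → ℝ)
          - fderiv ℝ (fun z => g z j k) x (Pi.single l 1 : Fin 3 → ℝ))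

end Pool.Agent.helper68.B2
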